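import Pool.Agent.helper91.SI.Spec

/-! # Project SI, row CA1: cycles of length `3k+1 ≥ 10` have an i-set with three slides -/

set_option autoImplicit false

namespace Pool.Agent.helper91.SI

open Pool.Agent.helper20.IG (IsIndepDom IsISet iGraph)

/-- the set of the vertices of `Fin n` with a property -/
noncomputable def CA1_set (n : ℕ) (P : ℕ → Prop) : Finset (Fin n) := by
  classical
  exact Finset.univ.filter (fun x : Fin n => P x.val)

lemma CA1_mem {n : ℕ} {P : ℕ → Prop} {x : Fin n} : x ∈ CA1_set n P ↔ P x.val := by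
  simp [CA1_set]

lemma CA1_dom (hCYA : CYA_stmt) {n : ℕ} (hn : 3 ≤ n) {P : ℕ → Prop}
    (h1 : ∀ x, x + 1 < n → P x → ¬ P (x + 1)) (h2 : ¬ (P (n - 1) ∧ P 0))
    (h3 : ∀ x, x < n → ¬ P x → (x + 1 < n ∧ P (x + 1)) ∨ (x + 1 = n ∧ P 0) ∨
      (1 ≤ x ∧ P (x - 1)) ∨ (x = 0 ∧ P (n - 1))) :
    IsIndepDom (SimpleGraph.cycleGraph n) (CA1_set n P) := by
  have key : ∀ u v : Fin n, (u.val + 1) % n = v.val → P u.val → P v.val → False := by
    intro u v huv hu hv
    by_cases hlt : u.val + 1 < n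
    · rw [Nat.mod_eq_of_lt hlt] at huv
      rw [← huv] at hv
      exact h1 _ hlt hu hv
    · have e : u.val + 1 = n := by have := u.isLt; omega
      rw [e, Nat.mod_self] at huv
      have e2 : u.val = n - 1 := by omega
      rw [e2] at hu
      rw [← huv] at hv
      exact h2 ⟨hu, hv⟩
  refine ⟨?_, ?_⟩
  · intro u hu v hv hadj
    rw [CA1_mem] at hu hv
    rcases (hCYA n hn u v).1 hadj with h | h
    · exact key u v h hu hv
    · exact key v u h hv hu
  · intro v hv
    rw [CA1_mem] at hv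
    have hlt := v.isLt
    rcases h3 v.val v.isLt hv with ⟨h, hP⟩ | ⟨h, hP⟩ | ⟨h, hP⟩ | ⟨h, hP⟩
    · refine ⟨⟨v.val + 1, h⟩, CA1_mem.2 hP, (hCYA n hn _ _).2 (Or.inr ?_)⟩
      exact Nat.mod_eq_of_lt h
    · refine ⟨⟨0, by omega⟩, CA1_mem.2 hP, (hCYA n hn _ _).2 (Or.inr ?_)⟩
      show (v.val + 1) % n = 0
      rw [h, Nat.mod_self]
    · refine ⟨⟨v.val - 1, by omega⟩, CA1_mem.2 hP, (hCYA n hn _ _).2 (Or.inl ?_)⟩
      show (v.val - 1 + 1) % n = v.val
      rw [Nat.sub_add_cancel h, Nat.mod_eq_of_lt hlt]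
    · refine ⟨⟨n - 1, by omega⟩, CA1_mem.2 hP, (hCYA n hn _ _).2 (Or.inl ?_)⟩
      show (n - 1 + 1) % n = v.val
      rw [Nat.sub_add_cancel (by omega), Nat.mod_self, h]

/-- one slide -/
lemma CA1_slide {n : ℕ}
    (T : Finset (Fin n)) (hT : IsISet (SimpleGraph.cycleGraph n) T) (u v : Fin n)
    (hu : u ∈ T) (hv : v ∉ T) (huv : (SimpleGraph.cycleGraph n).Adj u v)
    (hd : IsIndepDom (SimpleGraph.cycleGraph n) (insert v (T.erase u))) :
    ∃ h : IsISet (SimpleGraph.cycleGraph n) (insert v (T.erase u)),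
      (iGraph (SimpleGraph.cycleGraph n)).Adj ⟨T, hT⟩ ⟨insert v (T.erase u), h⟩ := by
  have hcard : (insert v (T.erase u)).card = T.card := by
    rw [Finset.card_insert_of_notMem (fun h => hv (Finset.mem_of_mem_erase h)),
      Finset.card_erase_of_mem hu]
    have : 0 < T.card := Finset.card_pos.2 ⟨u, hu⟩
    omega
  refine ⟨⟨hd, fun S hS => by rw [hcard]; exact hT.2 S hS⟩, ?_⟩
  refine ⟨?_, u, hu, v, Finset.mem_insert_self _ _, huv, rfl⟩
  intro e
  apply hv
  have e' : T = insert v (T.erase u) := congrArg Subtype.val e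
  rw [e']
  exact Finset.mem_insert_self _ _

theorem CA1 (hLBD : LBD_stmt) (hCTT : CTT_stmt) (hCYA : CYA_stmt) : CA1_stmt := by
  intro n hn hmod
  obtain ⟨k, hk⟩ : ∃ k, n = 3 * k + 1 := ⟨n / 3, by omega⟩
  have h3n : 3 ≤ n := by omega
  let P0 : ℕ → Prop := fun x => x = 0 ∨ x = 2 ∨ x = 5 ∨ (7 ≤ x ∧ x % 3 = 1 ∧ x + 3 ≤ n)
  let P1 : ℕ → Prop := fun x => x = n - 1 ∨ x = 2 ∨ x = 5 ∨ (7 ≤ x ∧ x % 3 = 1 ∧ x + 3 ≤ n)
  let P2 : ℕ → Prop := fun x => x = 0 ∨ x = 3 ∨ x = 5 ∨ (7 ≤ x ∧ x % 3 = 1 ∧ x + 3 ≤ n)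
  let P3 : ℕ → Prop := fun x => x = 0 ∨ x = 2 ∨ x = 4 ∨ (7 ≤ x ∧ x % 3 = 1 ∧ x + 3 ≤ n)
  let T : Finset (Fin n) := CA1_set n P0
  have hmT : ∀ x : Fin n, x ∈ T ↔
      (x.val = 0 ∨ x.val = 2 ∨ x.val = 5 ∨ (7 ≤ x.val ∧ x.val % 3 = 1 ∧ x.val + 3 ≤ n)) :=
    fun x => CA1_mem
  have hd0 : IsIndepDom (SimpleGraph.cycleGraph n) T := by
    apply CA1_dom hCYA h3n
    · intro x hx h h'
      simp only [P0] at h h'
      omega
    · intro h
      simp only [P0] at h
      omega
    · intro x hx h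
      simp only [P0] at h ⊢
      try simp only [true_or, or_true, and_true]
      omega
  have hd1 : IsIndepDom (SimpleGraph.cycleGraph n) (CA1_set n P1) := by
    apply CA1_dom hCYA h3n
    · intro x hx h h'
      simp only [P1] at h h'
      omega
    · intro h
      simp only [P1] at h
      omega
    · intro x hx h
      simp only [P1] at h ⊢
      try simp only [true_or, or_true, and_true]
      omega
  have hd2 : IsIndepDom (SimpleGraph.cycleGraph n) (CA1_set n P2) := by
    apply CA1_dom hCYA h3n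
    · intro x hx h h'
      simp only [P2] at h h'
      omega
    · intro h
      simp only [P2] at h
      omega
    · intro x hx h
      simp only [P2] at h ⊢
      try simp only [true_or, or_true, and_true]
      omega
  have hd3 : IsIndepDom (SimpleGraph.cycleGraph n) (CA1_set n P3) := by
    apply CA1_dom hCYA h3n
    · intro x hx h h'
      simp only [P3] at h h'
      omega
    · intro h
      simp only [P3] at h
      omega
    · intro x hx h
      simp only [P3] at h ⊢
      try simp only [true_or, or_true, and_true]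
      omega
  have hTcard : T.card ≤ k + 1 := by
    have : T.card ≤ (Finset.range (k + 1)).card := by
      apply Finset.card_le_card_of_injOn (fun x : Fin n => if x.val = 0 then 0 else x.val / 3 + 1)
      · intro x hx
        have hx' := (hmT x).1 hx
        simp only [Finset.coe_range, Set.mem_Iio]
        split_ifs <;> omega
      · intro x hx y hy hxy
        have hx' := (hmT x).1 hx
        have hy' := (hmT y).1 hy
        apply Fin.ext
        simp only at hxy
        split_ifs at hxy <;> omega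
    rwa [Finset.card_range] at this
  have hT : IsISet (SimpleGraph.cycleGraph n) T := by
    refine ⟨hd0, fun S hS => ?_⟩
    have := hLBD (Fin n) (SimpleGraph.cycleGraph n) (hCTT n h3n) S hS
    rw [Fintype.card_fin] at this
    omega
  -- the three slides
  have adj : ∀ u v : Fin n, (u.val + 1) % n = v.val ∨ (v.val + 1) % n = u.val →
      (SimpleGraph.cycleGraph n).Adj u v := fun u v h => (hCYA n h3n u v).2 h
  let v0 : Fin n := ⟨0, by omega⟩
  let v2 : Fin n := ⟨2, by omega⟩
  let v3 : Fin n := ⟨3, by omega⟩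
  let v4 : Fin n := ⟨4, by omega⟩
  let v5 : Fin n := ⟨5, by omega⟩
  let vn : Fin n := ⟨n - 1, by omega⟩
  have e1 : insert vn (T.erase v0) = CA1_set n P1 := by
    ext x
    have hx := x.isLt
    rw [Finset.mem_insert, Finset.mem_erase, hmT x, CA1_mem, Fin.ext_iff, Ne, Fin.ext_iff]
    simp only [P1, vn, v0]
    omega
  have e2 : insert v3 (T.erase v2) = CA1_set n P2 := by
    ext x
    have hx := x.isLt
    rw [Finset.mem_insert, Finset.mem_erase, hmT x, CA1_mem, Fin.ext_iff, Ne, Fin.ext_iff]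
    simp only [P2, v3, v2]
    omega
  have e3 : insert v4 (T.erase v5) = CA1_set n P3 := by
    ext x
    have hx := x.isLt
    rw [Finset.mem_insert, Finset.mem_erase, hmT x, CA1_mem, Fin.ext_iff, Ne, Fin.ext_iff]
    simp only [P3, v4, v5]
    omega
  have n1 : vn ∉ T := by
    rw [hmT]
    simp only [vn]
    omega
  have n2 : v3 ∉ T := by
    rw [hmT]
    simp only [v3]
    omega
  have n3 : v4 ∉ T := by
    rw [hmT]
    simp only [v4]
    omega
  obtain ⟨i1, a1⟩ := CA1_slide T hT v0 vn ((hmT _).2 (Or.inl rfl)) n1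
    (adj _ _ (Or.inr (by
      show (n - 1 + 1) % n = 0
      rw [Nat.sub_add_cancel (by omega), Nat.mod_self]))) (by rw [e1]; exact hd1)
  obtain ⟨i2, a2⟩ := CA1_slide T hT v2 v3 ((hmT _).2 (Or.inr (Or.inl rfl))) n2
    (adj _ _ (Or.inl (by
      show (2 + 1) % n = 3
      exact Nat.mod_eq_of_lt (by omega)))) (by rw [e2]; exact hd2)
  obtain ⟨i3, a3⟩ := CA1_slide T hT v5 v4
    ((hmT _).2 (Or.inr (Or.inr (Or.inl rfl)))) n3
    (adj _ _ (Or.inr (by
      show (4 + 1) % n = 5
      exact Nat.mod_eq_of_lt (by omega)))) (by rw [e3]; exact hd3)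
  refine ⟨_, _, _, _, a1, a2, a3, ?_, ?_, ?_⟩
  · intro e
    have e' : insert vn (T.erase v0) = insert v3 (T.erase v2) := congrArg Subtype.val e
    rw [e1, e2] at e'
    have h : vn ∈ CA1_set n P1 := CA1_mem.2 (Or.inl rfl)
    rw [e', CA1_mem] at h
    simp only [P2, vn] at h
    omega
  · intro e
    have e' : insert vn (T.erase v0) = insert v4 (T.erase v5) := congrArg Subtype.val e
    rw [e1, e3] at e'
    have h : vn ∈ CA1_set n P1 := CA1_mem.2 (Or.inl rfl)
    rw [e', CA1_mem] at h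
    simp only [P3, vn] at h
    omega
  · intro e
    have e' : insert v3 (T.erase v2) = insert v4 (T.erase v5) := congrArg Subtype.val e
    rw [e2, e3] at e'
    have h : v3 ∈ CA1_set n P2 := CA1_mem.2 (Or.inr (Or.inl rfl))
    rw [e', CA1_mem] at h
    simp only [P3, v3] at h
    omega

end Pool.Agent.helper91.SI
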