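import Pool.Agent.helper91.SI.Spec5
import Pool.Agent.helper58.SI.CA0

/-!
# Row CCN of project SI: number of i-sets of a cycle
-/

set_option autoImplicit false

namespace Pool.Agent.helper91.SI

open Pool.Agent.helper20.IG (IsIndepDom IsISet iGraph)

theorem CCN_of_iso (n : ℕ)
    (h : Nonempty (iGraph (SimpleGraph.cycleGraph n) ≃g SimpleGraph.cycleGraph n)) :
    Nat.card {S // IsISet (SimpleGraph.cycleGraph n) S} ≤ n := by
  obtain ⟨f⟩ := h
  have h1 : Nat.card {S // IsISet (SimpleGraph.cycleGraph n) S} = Nat.card (Fin n) :=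
    Nat.card_congr f.toEquiv
  rw [h1, Nat.card_eq_fintype_card, Fintype.card_fin]

theorem CCN (hCYA : CYA_stmt) (hCNV : CNV_stmt) : CCN_stmt := by
  intro n hn h1 h6 hE
  have h3 : n % 3 = 0 ∨ n % 3 = 1 ∨ n % 3 = 2 := by omega
  rcases h3 with h3 | h3 | h3
  · exfalso
    obtain ⟨X, Y, _, u, hu, v, _, huv, hY⟩ := hE
    exact ca0_noslide hCYA n (by omega) h3 X.1 Y.1 X.2 Y.2 u v hu huv hY
  · have h7 : n = 7 := by
      rcases h1 with h | h
      · exact absurd h3 h
      · exact h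
    subst h7
    exact CCN_of_iso 7 CV3_C7
  · exact CCN_of_iso n (hCNV n hn h3)

end Pool.Agent.helper91.SI
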