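import Pool.Agent.helper91.SI.Spec2

/-!
# Row CYG of project SI: the five hypotheses on closed walks in explicit form
-/

set_option autoImplicit false

namespace Pool.Agent.helper91.SI

open Pool.Agent.helper20.IG (IsIndepDom IsISet iGraph)

theorem CYG : CYG_stmt := by
  intro V G
  refine ⟨?_, ?_, ?_, ?_, ?_⟩
  · intro h a b c hab hbc hac
    have h1 := hab.ne
    have h2 := hbc.ne
    have h3 := hac.ne
    refine h a (.cons hab (.cons hbc (.cons hac.symm .nil))) ?_ rfl
    rw [SimpleGraph.Walk.cons_isCycle_iff]
    simp [h1, h2, h3, h1.symm, h2.symm, h3.symm]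
  · intro h a b c d hab hbc hcd hda hac hbd
    have h1 := hab.ne
    have h2 := hbc.ne
    have h3 := hcd.ne
    have h4 := hda.ne
    refine h a (.cons hab (.cons hbc (.cons hcd (.cons hda .nil)))) ?_ rfl
    rw [SimpleGraph.Walk.cons_isCycle_iff]
    simp [h1, h2, h3, h4, hac, hbd, h1.symm, h2.symm, h3.symm, h4.symm, hac.symm, hbd.symm]
  · intro h a b c d e hn hab hbc hcd hde hea
    refine h a (.cons hab (.cons hbc (.cons hcd (.cons hde (.cons hea .nil))))) ?_ rfl
    rw [SimpleGraph.Walk.cons_isCycle_iff]
    simp only [List.nodup_cons, List.mem_cons, List.not_mem_nil, or_false, not_or] at hn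
    simp
    grind
  · intro h a b c d e f hn hab hbc hcd hde hef hfa
    refine h a (.cons hab (.cons hbc (.cons hcd (.cons hde (.cons hef (.cons hfa .nil)))))) ?_ rfl
    rw [SimpleGraph.Walk.cons_isCycle_iff]
    simp only [List.nodup_cons, List.mem_cons, List.not_mem_nil, or_false, not_or] at hn
    simp
    grind
  · intro h a b c d e f g hn hab hbc hcd hde hef hfg hga
    refine h a (.cons hab (.cons hbc (.cons hcd (.cons hde (.cons hef (.cons hfg
      (.cons hga .nil))))))) ?_ rfl
    rw [SimpleGraph.Walk.cons_isCycle_iff]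
    simp only [List.nodup_cons, List.mem_cons, List.not_mem_nil, or_false, not_or] at hn
    simp
    grind

end Pool.Agent.helper91.SI
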