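import Pool.Agent.helper91.SI.Spec4

/-!
# Row D6C of project SI: the slides of a closed walk of length 6 do not run around a 6-cycle
-/

set_option autoImplicit false

namespace Pool.Agent.helper91.SI

open Pool.Agent.helper20.IG (IsIndepDom IsISet iGraph)

/-- independent and dominating sets in the cycle of length 6 -/
def D6C_good (T : Finset (ZMod 6)) : Prop :=
  (∀ k, ¬ (k ∈ T ∧ k + 1 ∈ T)) ∧ (∀ k, k ∈ T ∨ k - 1 ∈ T ∨ k + 1 ∈ T)

instance D6C_dec (T : Finset (ZMod 6)) : Decidable (D6C_good T) := by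
  unfold D6C_good
  infer_instance

theorem D6C_key : ∀ (T : Finset (ZMod 6)) (k : ZMod 6),
    ¬ (D6C_good T ∧ (k ∈ T ∧ k + 1 ∉ T) ∧ D6C_good (insert (k + 1) (T.erase k))) := by
  decide +kernel

theorem D6C_all : ∀ j k : ZMod 6, k = j ∨ k = j + 1 ∨ k = j + 2 ∨ k = j + 3 ∨
    j = k + 2 ∨ j = k + 1 := by
  decide +kernel

theorem D6C_ne : ∀ j : ZMod 6, j ≠ j + 2 ∧ j + 1 ≠ j + 3 := by
  decide +kernel

theorem D6C_two {V : Type} (G : SimpleGraph V) (z : ZMod 6 → V) (hT : NoTri G) (hz : Cyc6 G z)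
    (j : ZMod 6) (h : G.Adj (z j) (z (j + 2))) : False := by
  have h1 := hz.2 j
  have h2 := hz.2 (j + 1)
  have e : j + 1 + 1 = j + 2 := by ring
  rw [e] at h2
  exact hT _ _ _ h1 h2 h

theorem D6C_three {V : Type} (G : SimpleGraph V) (z : ZMod 6 → V) (h4 : NoC4 G) (hz : Cyc6 G z)
    (j : ZMod 6) (h : G.Adj (z j) (z (j + 3))) : False := by
  have h1 := hz.2 j
  have h2 := hz.2 (j + 1)
  have h3 := hz.2 (j + 2)
  have e : j + 1 + 1 = j + 2 := by ring
  have e' : j + 2 + 1 = j + 3 := by ring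
  rw [e] at h2
  rw [e'] at h3
  refine h4 _ _ _ _ h1 h2 h3 h.symm ?_ ?_
  · intro q
    exact (D6C_ne j).1 (hz.1 q)
  · intro q
    exact (D6C_ne j).2 (hz.1 q)

theorem D6C_chord {V : Type} (G : SimpleGraph V) (z : ZMod 6 → V) (hT : NoTri G) (h4 : NoC4 G)
    (hz : Cyc6 G z) (j k : ZMod 6) (h : G.Adj (z j) (z k)) : j = k + 1 ∨ k = j + 1 := by
  rcases D6C_all j k with e | e | e | e | e | e
  · rw [e] at h
    exact absurd h (G.loopless.irrefl _)
  · exact Or.inr e
  · rw [e] at h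
    exact (D6C_two G z hT hz j h).elim
  · rw [e] at h
    exact (D6C_three G z h4 hz j h).elim
  · rw [e] at h
    exact (D6C_two G z hT hz k h.symm).elim
  · exact Or.inl e

theorem D6C : D6C_stmt := by
  intro V _ G S z κ hT h4 hI hz hS
  classical
  have hstay : ∀ r, (∀ k, z k ≠ r) → ∀ t, (r ∈ S t ↔ r ∈ S 0) := by
    intro r hr t
    have hn : ∀ n : ℕ, (r ∈ S (n : ZMod 6) ↔ r ∈ S 0) := by
      intro n
      induction n with
      | zero => simp
      | succ n ih =>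
        rw [← ih]
        have e : ((n + 1 : ℕ) : ZMod 6) = (n : ZMod 6) + 1 := by push_cast; rfl
        rw [e, (hS n).2.2, Finset.mem_insert, Finset.mem_erase]
        constructor
        · rintro (h | h)
          · exact absurd h.symm (hr _)
          · exact h.2
        · intro h
          exact Or.inr ⟨(hr _).symm, h⟩
    have h := hn t.val
    rwa [ZMod.natCast_zmod_val] at h
  have hRadj : ∀ k r, (∀ k, z k ≠ r) → r ∈ S 0 → ¬ G.Adj r (z k) := by
    intro k r hr hr0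
    have hk : z k ∈ S (κ.symm (k - 1) + 1) := by
      rw [(hS (κ.symm (k - 1))).2.2, Equiv.apply_symm_apply, sub_add_cancel]
      exact Finset.mem_insert_self _ _
    exact (hI _).1 r ((hstay r hr _).2 hr0) _ hk
  obtain ⟨T, hTdef⟩ : ∃ T : ZMod 6 → Finset (ZMod 6),
      T = fun t => Finset.univ.filter (fun k => z k ∈ S t) := ⟨_, rfl⟩
  have hTmem : ∀ t k, k ∈ T t ↔ z k ∈ S t := by
    intro t k
    rw [hTdef]
    simp
  have hT1 : ∀ t k, ¬ (k ∈ T t ∧ k + 1 ∈ T t) := by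
    rintro t k ⟨h1, h2⟩
    rw [hTmem] at h1 h2
    exact (hI t).1 _ h1 _ h2 (hz.2 k)
  have hT2 : ∀ t k, k ∈ T t ∨ k - 1 ∈ T t ∨ k + 1 ∈ T t := by
    intro t k
    simp only [hTmem]
    by_cases h : z k ∈ S t
    · exact Or.inl h
    · right
      obtain ⟨u, hu, hadj⟩ := (hI t).2 (z k) h
      by_cases hq : ∃ j, z j = u
      · obtain ⟨j, hj⟩ := hq
        rw [← hj] at hadj hu
        rcases D6C_chord G z hT h4 hz j k hadj with e | e
        · right
          rw [← e]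
          exact hu
        · left
          have : k - 1 = j := by rw [e]; ring
          rw [this]
          exact hu
      · have hq' : ∀ j, z j ≠ u := fun j hj => hq ⟨j, hj⟩
        exact absurd hadj (hRadj k u hq' ((hstay u hq' t).1 hu))
  obtain ⟨s1, s2, s3⟩ := hS 0
  have hTs : T (0 + 1) = insert (κ 0 + 1) ((T 0).erase (κ 0)) := by
    ext k
    rw [hTmem, s3, Finset.mem_insert, Finset.mem_erase, Finset.mem_insert, Finset.mem_erase,
      hTmem, hz.1.eq_iff, Ne, hz.1.eq_iff]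
  refine D6C_key (T 0) (κ 0) ⟨⟨hT1 0, hT2 0⟩, ⟨(hTmem _ _).2 s1, fun h => s2 ((hTmem _ _).1 h)⟩, ?_⟩
  rw [← hTs]
  exact ⟨hT1 _, hT2 _⟩

end Pool.Agent.helper91.SI
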